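import Pool.Agent.Y283.NK.Stm2
import Pool.Agent.Y891.NK.AREA

/-!
# Project NK: measurability of potentials, Cauchy transforms and determinants; local integrability
-/

set_option autoImplicit false

namespace Pool.Agent.Y604.NK

open MeasureTheory Set Metric Filter Topology Pool.Agent.Y283.NK
open scoped InnerProductSpace ENNReal NNReal ComplexConjugate

variable {S : Type} [MeasurableSpace S] {μ : Measure S}

theorem meas_lm : Measurable lm := by
  unfold lm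
  refine Measurable.ite (measurableSet_singleton 0) measurable_const ?_
  refine ENNReal.measurable_ofReal.comp ?_
  unfold Real.posLog
  exact measurable_const.max (Real.measurable_log.comp measurable_inv)

theorem meas_coe (f : Lp ℂ 2 μ) : Measurable (fun s => f s) := (Lp.stronglyMeasurable f).measurable

theorem meas_ea2 {φ : S → ℂ} (hφ : Measurable φ) (f : Lp ℂ 2 μ) :
    Measurable (fun p : ℂ × S => ‖f p.2‖ₑ ^ 2 * ‖p.1 - φ p.2‖ₑ⁻¹) := by
  have h1 : Measurable (fun p : ℂ × S => f p.2) := (meas_coe f).comp measurable_snd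
  have h2 : Measurable (fun p : ℂ × S => p.1 - φ p.2) :=
    measurable_fst.sub (hφ.comp measurable_snd)
  exact (h1.enorm.pow_const 2).mul h2.enorm.inv

theorem meas_ea [SigmaFinite μ] {φ : S → ℂ} (hφ : Measurable φ) (f : Lp ℂ 2 μ) :
    Measurable (ea φ f) := by
  unfold ea
  exact Measurable.lintegral_prod_right'
    (f := fun p : ℂ × S => ‖f p.2‖ₑ ^ 2 * ‖p.1 - φ p.2‖ₑ⁻¹) (meas_ea2 hφ f)

theorem meas_ct [SigmaFinite μ] {φ : S → ℂ} (hφ : Measurable φ) (g f : Lp ℂ 2 μ) :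
    Measurable (ct φ g f) := by
  unfold ct
  have h0 : Measurable (fun p : ℂ × S => g p.2) := (meas_coe g).comp measurable_snd
  have h1 : Measurable (fun p : ℂ × S => f p.2) := (meas_coe f).comp measurable_snd
  have h2 : Measurable (fun p : ℂ × S => p.1 - φ p.2) :=
    measurable_fst.sub (hφ.comp measurable_snd)
  have h3 : Measurable (fun p : ℂ × S => conj (g p.2) * f p.2 * (p.1 - φ p.2)⁻¹) :=
    ((Complex.continuous_conj.measurable.comp h0).mul h1).mul h2.inv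
  exact (StronglyMeasurable.integral_prod_right'
    (f := fun p : ℂ × S => conj (g p.2) * f p.2 * (p.1 - φ p.2)⁻¹) h3.stronglyMeasurable).measurable

theorem meas_det [SigmaFinite μ] {φ : S → ℂ} (hφ : Measurable φ) (u v : ℕ → Lp ℂ 2 μ) (n : ℕ) :
    Measurable (fun p : ℂ × ℂ => (MM φ u v n p.2 p.1).det) := by
  simp only [Matrix.det_apply']
  refine Finset.measurable_sum _ fun σ _ => ?_
  refine Measurable.const_mul ?_ _
  refine Finset.measurable_prod _ fun i _ => ?_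
  have h1 : (fun p : ℂ × ℂ => MM φ u v n p.2 p.1 (σ i) i) =
      fun p : ℂ × ℂ => (1 : Matrix (Fin n) (Fin n) ℂ) (σ i) i -
        p.2 * ct φ (v (σ i)) (u i) p.1 := by
    funext p
    simp [MM, Matrix.sub_apply]
  rw [h1]
  exact measurable_const.sub (measurable_snd.mul ((meas_ct hφ _ _).comp measurable_fst))

theorem main_meas : S_MEAS := by
  intro S _ μ _ φ hφ
  exact ⟨fun f => meas_ea hφ f, fun g f => meas_ct hφ g f, fun u v n => meas_det hφ u v n, meas_lm⟩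

theorem lint_sq (f : Lp ℂ 2 μ) : ∫⁻ s, ‖f s‖ₑ ^ 2 ∂μ = ENNReal.ofReal (‖f‖ ^ 2) := by
  have h1 : eLpNorm f ((2 : ℝ≥0) : ℝ≥0∞) μ ^ ((2 : ℝ≥0) : ℝ) =
      ∫⁻ x, ‖f x‖ₑ ^ ((2 : ℝ≥0) : ℝ) ∂μ := eLpNorm_nnreal_pow_eq_lintegral (by norm_num)
  have h2 : ((2 : ℝ≥0) : ℝ≥0∞) = 2 := rfl
  have h3 : ((2 : ℝ≥0) : ℝ) = ((2 : ℕ) : ℝ) := by norm_num
  rw [h2, h3] at h1
  simp only [ENNReal.rpow_natCast] at h1
  rw [← h1, ← Lp.enorm_def, ENNReal.ofReal_pow (norm_nonneg _), ofReal_norm]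

theorem ea_ball [SigmaFinite μ] {φ : S → ℂ} (hφ : Measurable φ) (f : Lp ℂ 2 μ) (R : ℝ) (C : ℝ≥0)
    (hC : ∀ w : ℂ, ∫⁻ z in ball (0:ℂ) R, ‖z - w‖ₑ⁻¹ ≤ C) :
    ∫⁻ z in ball (0:ℂ) R, ea φ f z ≤ C * ENNReal.ofReal (‖f‖ ^ 2) := by
  unfold ea
  rw [lintegral_lintegral_swap (f := fun (z : ℂ) (s : S) => ‖f s‖ₑ ^ 2 * ‖z - φ s‖ₑ⁻¹)
    (meas_ea2 hφ f).aemeasurable]
  calc ∫⁻ s, (∫⁻ z in ball (0:ℂ) R, ‖f s‖ₑ ^ 2 * ‖z - φ s‖ₑ⁻¹) ∂μ
      ≤ ∫⁻ s, C * ‖f s‖ₑ ^ 2 ∂μ := by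
        refine lintegral_mono fun s => ?_
        rw [lintegral_const_mul _ (by
          exact (measurable_id.sub measurable_const).enorm.inv), mul_comm]
        exact mul_le_mul_left (hC (φ s)) _
    _ = C * ENNReal.ofReal (‖f‖ ^ 2) := by
        rw [lintegral_const_mul _ ((meas_coe f).enorm.pow_const 2), lint_sq]

theorem main_eai : S_EAI := by
  intro S _ μ _ φ hφ u hu R
  obtain ⟨C, hC⟩ := Pool.Agent.Y891.NK.main_area R
  rw [lintegral_tsum fun j => (meas_ea hφ (u j)).aemeasurable]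
  have h1 : ∑' j, ∫⁻ z in ball (0:ℂ) R, ea φ (u j) z ≤ ∑' j, C * ENNReal.ofReal (‖u j‖ ^ 2) :=
    ENNReal.tsum_le_tsum fun j => ea_ball hφ (u j) R C hC
  refine ne_top_of_le_ne_top ?_ h1
  rw [ENNReal.tsum_mul_left]
  exact ENNReal.mul_ne_top ENNReal.coe_ne_top hu.tsum_ofReal_ne_top

end Pool.Agent.Y604.NK
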