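import Pool.Agent.Y283.NK.Stm2
import Pool.Agent.Y978.NK.DET
import Pool.Agent.Y907.NK.INV

/-!
# Project NK: the matrix `F(z)` is a matrix of inner products
-/

set_option autoImplicit false

namespace Pool.Agent.Y604.NK.GRAM

open MeasureTheory Set Metric Filter Topology Pool.Agent.Y283.NK
open scoped InnerProductSpace ENNReal NNReal ComplexConjugate

variable {S : Type} [MeasurableSpace S] {μ : Measure S}

theorem meas_coe (f : Lp ℂ 2 μ) : Measurable (fun s => f s) := (Lp.stronglyMeasurable f).measurable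

/-- `f(s) (z - φ s)⁻¹ √|z - φ s|` -/
noncomputable def pf (φ : S → ℂ) (f : Lp ℂ 2 μ) (z : ℂ) (s : S) : ℂ :=
  f s * (z - φ s)⁻¹ * (Real.sqrt ‖z - φ s‖ : ℝ)

/-- `g(s) (√|z - φ s|)⁻¹` -/
noncomputable def qf (φ : S → ℂ) (g : Lp ℂ 2 μ) (z : ℂ) (s : S) : ℂ :=
  g s * ((Real.sqrt ‖z - φ s‖)⁻¹ : ℝ)

theorem meas_pf {φ : S → ℂ} (hφ : Measurable φ) (f : Lp ℂ 2 μ) (z : ℂ) :
    Measurable (pf φ f z) := by
  unfold pf
  have h2 : Measurable (fun s : S => z - φ s) := measurable_const.sub hφ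
  exact ((meas_coe f).mul h2.inv).mul (Complex.measurable_ofReal.comp h2.norm.sqrt)

theorem meas_qf {φ : S → ℂ} (hφ : Measurable φ) (f : Lp ℂ 2 μ) (z : ℂ) :
    Measurable (qf φ f z) := by
  unfold qf
  have h2 : Measurable (fun s : S => z - φ s) := measurable_const.sub hφ
  exact (meas_coe f).mul (Complex.measurable_ofReal.comp h2.norm.sqrt.inv)

theorem aux_sq (a w : ℂ) (b : ℝ) (h0 : w = 0 → b = 0) (h1 : w ≠ 0 → b ^ 2 = ‖a‖ ^ 2 * ‖w‖⁻¹)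
    (hb : 0 ≤ b) : ENNReal.ofReal b ^ 2 ≤ ‖a‖ₑ ^ 2 * ‖w‖ₑ⁻¹ := by
  by_cases hw : w = 0
  · rw [h0 hw]
    simp
  · have hw' : 0 < ‖w‖ := norm_pos_iff.2 hw
    rw [← ENNReal.ofReal_pow hb, h1 hw, ENNReal.ofReal_mul (by positivity),
      ENNReal.ofReal_pow (norm_nonneg _), ofReal_norm, ENNReal.ofReal_inv_of_pos hw',
      ofReal_norm]

theorem pf_sq (φ : S → ℂ) (f : Lp ℂ 2 μ) (z : ℂ) (s : S) :
    ‖pf φ f z s‖ₑ ^ 2 ≤ ‖f s‖ₑ ^ 2 * ‖z - φ s‖ₑ⁻¹ := by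
  rw [← ofReal_norm]
  refine aux_sq _ _ _ (fun h => ?_) (fun h => ?_) (norm_nonneg _)
  · unfold pf
    rw [h]
    simp
  · have hw' : 0 < ‖z - φ s‖ := norm_pos_iff.2 h
    unfold pf
    rw [norm_mul, norm_mul, norm_inv, Complex.norm_real, Real.norm_of_nonneg (Real.sqrt_nonneg _),
      mul_pow, mul_pow, Real.sq_sqrt hw'.le]
    field_simp

theorem qf_sq (φ : S → ℂ) (f : Lp ℂ 2 μ) (z : ℂ) (s : S) :
    ‖qf φ f z s‖ₑ ^ 2 ≤ ‖f s‖ₑ ^ 2 * ‖z - φ s‖ₑ⁻¹ := by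
  rw [← ofReal_norm]
  refine aux_sq _ _ _ (fun h => ?_) (fun h => ?_) (norm_nonneg _)
  · unfold qf
    rw [h]
    simp
  · have hw' : 0 < ‖z - φ s‖ := norm_pos_iff.2 h
    unfold qf
    rw [norm_mul, Complex.norm_real, Real.norm_of_nonneg (inv_nonneg.2 (Real.sqrt_nonneg _)),
      mul_pow, inv_pow, Real.sq_sqrt hw'.le]

theorem inner_pq (φ : S → ℂ) (g f : Lp ℂ 2 μ) (z : ℂ) (s : S) :
    ⟪qf φ g z s, pf φ f z s⟫_ℂ = conj (g s) * f s * (z - φ s)⁻¹ := by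
  rw [RCLike.inner_apply]
  unfold pf qf
  by_cases h : z - φ s = 0
  · rw [h]
    simp
  · have hw' : 0 < Real.sqrt ‖z - φ s‖ := Real.sqrt_pos.2 (norm_pos_iff.2 h)
    have h2 : ((Real.sqrt ‖z - φ s‖ : ℝ) : ℂ) ≠ 0 := by exact_mod_cast hw'.ne'
    rw [map_mul, Complex.conj_ofReal, Complex.ofReal_inv]
    field_simp

theorem memLp_of {F : S → ℂ} (hF : Measurable F) {A : ℝ≥0∞} (hA : A ≠ ⊤)
    (h : ∫⁻ s, ‖F s‖ₑ ^ 2 ∂μ ≤ A) : ∃ G : Lp ℂ 2 μ, (⇑G =ᵐ[μ] F) ∧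
      ENNReal.ofReal (‖G‖ ^ 2) ≤ A := by
  have h1 : eLpNorm F ((2 : ℝ≥0) : ℝ≥0∞) μ ^ ((2 : ℝ≥0) : ℝ) =
      ∫⁻ x, ‖F x‖ₑ ^ ((2 : ℝ≥0) : ℝ) ∂μ := eLpNorm_nnreal_pow_eq_lintegral (by norm_num)
  have h2 : ((2 : ℝ≥0) : ℝ≥0∞) = 2 := rfl
  have h3 : ((2 : ℝ≥0) : ℝ) = ((2 : ℕ) : ℝ) := by norm_num
  rw [h2, h3] at h1
  simp only [ENNReal.rpow_natCast] at h1
  have h4 : eLpNorm F 2 μ ≠ ⊤ := by
    intro h5
    rw [h5] at h1
    rw [← h1] at h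
    simp at h
    exact hA h
  have hM : MemLp F 2 μ := ⟨hF.aestronglyMeasurable, lt_top_iff_ne_top.2 h4⟩
  refine ⟨hM.toLp F, hM.coeFn_toLp, ?_⟩
  rw [ENNReal.ofReal_pow (norm_nonneg _), ofReal_norm, Lp.enorm_def,
    eLpNorm_congr_ae hM.coeFn_toLp, h1]
  exact h

theorem main : S_GRAM := by
  intro S _ μ _ φ hφ u v n x z α β ε hα hβ hε hu hv hx
  have hfin : ∀ (w : ℕ → Lp ℂ 2 μ) (γ : ℝ), (∑' j, ea φ (w j) z) ≤ ENNReal.ofReal γ →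
      ∀ j, ea φ (w j) z ≠ ⊤ := fun w γ h j =>
    ne_top_of_le_ne_top ENNReal.ofReal_ne_top ((ENNReal.le_tsum j).trans h)
  have hP : ∀ j, ∃ G : Lp ℂ 2 μ, (⇑G =ᵐ[μ] pf φ (u j) z) ∧
      ENNReal.ofReal (‖G‖ ^ 2) ≤ ea φ (u j) z := fun j =>
    memLp_of (meas_pf hφ _ _) (hfin u α hu j) (lintegral_mono fun s => pf_sq φ _ z s)
  have hQ : ∀ j, ∃ G : Lp ℂ 2 μ, (⇑G =ᵐ[μ] qf φ (v j) z) ∧
      ENNReal.ofReal (‖G‖ ^ 2) ≤ ea φ (v j) z := fun j =>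
    memLp_of (meas_qf hφ _ _) (hfin v β hv j) (lintegral_mono fun s => qf_sq φ _ z s)
  obtain ⟨px, hpx, hpx2⟩ : ∃ G : Lp ℂ 2 μ, (⇑G =ᵐ[μ] pf φ x z) ∧
      ENNReal.ofReal (‖G‖ ^ 2) ≤ ea φ x z :=
    memLp_of (meas_pf hφ _ _) (ne_top_of_le_ne_top ENNReal.ofReal_ne_top hx)
      (lintegral_mono fun s => pf_sq φ _ z s)
  choose p hp hp2 using hP
  choose q hq hq2 using hQ
  have hsum : ∀ (w G : ℕ → Lp ℂ 2 μ) (γ : ℝ), 0 ≤ γ →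
      (∀ j, ENNReal.ofReal (‖G j‖ ^ 2) ≤ ea φ (w j) z) →
      (∑' j, ea φ (w j) z) ≤ ENNReal.ofReal γ → ∑ j : Fin n, ‖G j‖ ^ 2 ≤ γ := by
    intro w G γ hγ h1 h2
    rw [← ENNReal.ofReal_le_ofReal_iff hγ, ENNReal.ofReal_sum_of_nonneg (fun j _ => sq_nonneg _)]
    refine le_trans ?_ h2
    rw [Fin.sum_univ_eq_sum_range (fun j => ENNReal.ofReal (‖G j‖ ^ 2))]
    exact (Finset.sum_le_sum fun j _ => h1 j).trans (ENNReal.sum_le_tsum _)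
  have hpa := hsum u p α hα hp2 hu
  have hqb := hsum v q β hβ hq2 hv
  have hxe : ‖px‖ ^ 2 ≤ ε := by
    rw [← ENNReal.ofReal_le_ofReal_iff hε]
    exact hpx2.trans hx
  have hin : ∀ (g f G F : Lp ℂ 2 μ), (⇑G =ᵐ[μ] qf φ g z) → (⇑F =ᵐ[μ] pf φ f z) →
      ⟪G, F⟫_ℂ = ct φ g f z := by
    intro g f G F hG hF
    rw [L2.inner_def]
    unfold ct
    refine integral_congr_ae ?_
    filter_upwards [hG, hF] with s h1 h2
    rw [h1, h2, inner_pq]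
  have hMM : ∀ t : ℂ, MM φ u v n t z = (1 : Matrix (Fin n) (Fin n) ℂ) -
      t • Matrix.of (fun i j : Fin n => ⟪q i, p j⟫_ℂ) := by
    intro t
    unfold MM
    congr 3
    funext i j
    exact (hin _ _ _ _ (hq i) (hp j)).symm
  refine ⟨?_, fun t c hdet hc => ?_⟩
  · obtain ⟨m, h1, h2⟩ := Pool.Agent.Y978.NK.main (Lp ℂ 2 μ) n (fun j : Fin n => p j)
      (fun j : Fin n => q j)
    refine ⟨m, fun t => ?_, h2.trans ?_⟩
    · rw [hMM]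
      exact h1 t
    · exact mul_le_mul (Real.sqrt_le_sqrt hpa) (Real.sqrt_le_sqrt hqb) (Real.sqrt_nonneg _)
        (Real.sqrt_nonneg _)
  · rw [hMM] at hdet hc
    have h1 := Pool.Agent.Y907.NK.main Pool.Agent.Y978.NK.main (Lp ℂ 2 μ) n
      (fun j : Fin n => p j) (fun j : Fin n => q j) t _ c hdet hc
    rw [hMM]
    refine h1.trans ?_
    refine mul_le_mul ?_ ?_ ?_ ?_
    · rw [← Real.sqrt_mul hβ]
      refine Real.sqrt_le_sqrt ?_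
      calc ∑ i : Fin n, ‖ct φ (v i) x z‖ ^ 2 ≤ ∑ i : Fin n, ‖q i‖ ^ 2 * ‖px‖ ^ 2 := by
            refine Finset.sum_le_sum fun i _ => ?_
            rw [← hin _ _ _ _ (hq i) hpx, ← mul_pow]
            exact pow_le_pow_left₀ (norm_nonneg _) (norm_inner_le_norm _ _) 2
        _ = (∑ i : Fin n, ‖q i‖ ^ 2) * ‖px‖ ^ 2 := by rw [Finset.sum_mul]
        _ ≤ β * ε := mul_le_mul hqb hxe (sq_nonneg _) hβ
    · gcongr
    · positivity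
    · positivity

end Pool.Agent.Y604.NK.GRAM
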